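import Mathlib
import Pool.Agent.H.MP_639dfe_co.D

set_option autoImplicit false

namespace Pool.Agent.H.MP_639dfe_co
open Set

def Rel {Λ : Type} (pos : Pt → ℝ) (lab : Pt → Λ) (x y x' y' : Pt) : Prop :=
  lab x = lab x' ∧ lab y = lab y' ∧ (pos x < pos y ↔ pos x' < pos y') ∧
    (pos y < pos x ↔ pos y' < pos x')

lemma Rel.symm {Λ : Type} {pos : Pt → ℝ} {lab : Pt → Λ} {x y x' y' : Pt}
    (h : Rel pos lab x y x' y') : Rel pos lab y x y' x' := ⟨h.2.1, h.1, h.2.2.2, h.2.2.1⟩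

lemma Rel.sg {Λ : Type} {pos : Pt → ℝ} {lab : Pt → Λ} {x y x' y' : Pt}
    (h : Rel pos lab x y x' y') :
    SignType.sign (pos y - pos x) = SignType.sign (pos y' - pos x') := by
  rcases lt_trichotomy (pos x) (pos y) with a | a | a
  · rw [sign_pos (sub_pos.2 a), sign_pos (sub_pos.2 (h.2.2.1.1 a))]
  · have b : pos x' = pos y' := le_antisymm (not_lt.1 fun c => (h.2.2.2.2 c).ne' a)
      (not_lt.1 fun c => (h.2.2.1.2 c).ne a)
    rw [a, b, sub_self, sub_self]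
  · rw [sign_neg (sub_neg.2 a), sign_neg (sub_neg.2 (h.2.2.2.1 a))]

def Pres (Λ : Type) (S : Finset Pt) : Prop :=
  ∃ (pos : Pt → ℝ) (lab : Pt → Λ), (∀ x ∈ S, ∀ y ∈ S, pos x = pos y → lab x = lab y → x = y) ∧
    ∀ a ∈ S, ∀ b ∈ S, ∀ c ∈ S, ∀ a' ∈ S, ∀ b' ∈ S, ∀ c' ∈ S, Rel pos lab a b a' b' →
      Rel pos lab a c a' c' → Rel pos lab b c b' c' → orient a b c = orient a' b' c'

def dat {Λ : Type} (r : Pt → ℕ) (lab : Pt → Λ) (a b c : Pt) : (Λ × Λ × Λ) × (Fin 6 → Bool) :=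
  ((lab a, lab b, lab c), ![decide (r a < r b), decide (r b < r a), decide (r a < r c),
    decide (r c < r a), decide (r b < r c), decide (r c < r b)])

lemma code {Λ : Type} {S : Finset Pt} (h : Pres Λ S) :
    ∃ (r : Pt → ℕ) (lab : Pt → Λ) (Φ : (Λ × Λ × Λ) × (Fin 6 → Bool) → SignType),
      (∀ x ∈ S, r x < S.card) ∧ (∀ x ∈ S, ∀ y ∈ S, r x = r y → lab x = lab y → x = y) ∧
      ∀ a ∈ S, ∀ b ∈ S, ∀ c ∈ S, orient a b c = Φ (dat r lab a b c) := by
  classical
  obtain ⟨pos, lab, h1, h2⟩ := h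
  let r : Pt → ℕ := fun x => (S.filter fun z => pos z < pos x).card
  have lt : ∀ x ∈ S, ∀ y, pos x < pos y → r x < r y := by
    intro x hx y a
    apply Finset.card_lt_card
    refine ⟨fun z hz => ?_, fun hs => ?_⟩
    · rw [Finset.mem_filter] at hz ⊢
      exact ⟨hz.1, hz.2.trans a⟩
    · simpa using hs (Finset.mem_filter.2 ⟨hx, a⟩)
  have iff : ∀ x ∈ S, ∀ y ∈ S, (pos x < pos y ↔ r x < r y) := by
    intro x hx y hy
    refine ⟨lt x hx y, fun a => ?_⟩
    rcases lt_trichotomy (pos x) (pos y) with b | b | b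
    · exact b
    · simp [r, b] at a
    · exact absurd (lt y hy x b) a.not_gt
  let T := {t : Pt × Pt × Pt // t.1 ∈ S ∧ t.2.1 ∈ S ∧ t.2.2 ∈ S}
  have ft : Function.FactorsThrough (fun t : T => orient t.1.1 t.1.2.1 t.1.2.2)
      (fun t : T => dat r lab t.1.1 t.1.2.1 t.1.2.2) := by
    rintro ⟨⟨a, b, c⟩, ha, hb, hc⟩ ⟨⟨a', b', c'⟩, ha', hb', hc'⟩ e
    simp only [dat, Prod.mk.injEq, Matrix.vecCons_inj, decide_eq_decide, and_true] at e
    obtain ⟨⟨l1, l2, l3⟩, e1, e2, e3, e4, e5, e6⟩ := e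
    simp only at ha hb hc ha' hb' hc'
    refine h2 a ha b hb c hc a' ha' b' hb' c' hc' ⟨l1, l2, ?_, ?_⟩ ⟨l1, l3, ?_, ?_⟩ ⟨l2, l3, ?_, ?_⟩
      <;> rw [iff _ (by assumption) _ (by assumption), iff _ (by assumption) _ (by assumption)]
      <;> assumption
  obtain ⟨Φ, hΦ⟩ := (Function.factorsThrough_iff _).1 ft
  refine ⟨r, lab, Φ, fun x hx => ?_, fun x hx y hy a b => h1 x hx y hy ?_ b,
    fun a ha b hb c hc => congrFun hΦ ⟨(a, b, c), ha, hb, hc⟩⟩
  · exact Finset.card_lt_card (Finset.filter_ssubset.2 ⟨x, hx, lt_irrefl _⟩)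
  · exact le_antisymm (not_lt.1 fun c => (lt y hy x c).ne' a) (not_lt.1 fun c => (lt x hx y c).ne a)

lemma pwo (Λ : Type) [Finite Λ] : {S | Pres Λ S}.PartiallyWellOrderedOn Sub := by
  classical
  rw [partiallyWellOrderedOn_iff_exists_lt]
  intro S hS
  choose r lab Φ h1 h2 h3 using fun n => code (hS n)
  let L : ℕ → ℕ → ((Λ × Λ × Λ) × (Fin 6 → Bool) → SignType) × Set Λ := fun n i =>
    (Φ n, {l | ∃ x ∈ S n, r n x = i ∧ lab n x = l})
  obtain ⟨i, j, ij, hs⟩ := (PartiallyWellOrderedOn.partiallyWellOrderedOn_sublistForall₂ Eq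
    (finite_univ.partiallyWellOrderedOn)).exists_lt
    (f := fun n => (List.range (S n).card).map (L n)) (fun n x _ => mem_univ x)
  obtain ⟨l, hl, hs⟩ := List.sublistForall₂_iff.1 hs
  rw [List.forall₂_eq_eq_eq] at hl
  subst hl
  obtain ⟨e, he⟩ := List.sublist_iff_exists_orderEmbedding_getElem?_eq.1 hs
  have key : ∀ x ∈ S i, L i (r i x) = L j (e (r i x)) := by
    intro x hx
    have := he (r i x)
    rw [List.getElem?_map, List.getElem?_map, List.getElem?_range (h1 i x hx)] at this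
    by_cases a : e (r i x) < (S j).card
    · rw [List.getElem?_range a] at this
      simpa using this
    · rw [List.getElem?_eq_none (by simpa using a)] at this
      simp at this
  have ex : ∀ x, ∃ y, x ∈ S i → y ∈ S j ∧ r j y = e (r i x) ∧ lab j y = lab i x := by
    intro x
    by_cases hx : x ∈ S i
    · have : lab i x ∈ (L j (e (r i x))).2 := by rw [← key x hx]; exact ⟨x, hx, rfl, rfl⟩
      obtain ⟨y, hy⟩ := this
      exact ⟨y, fun _ => hy⟩
    · exact ⟨x, fun a => absurd a hx⟩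
  choose f hf using ex
  refine ⟨i, j, ij, f, fun x hx y hy a => h2 i x hx y hy (e.injective ?_) ?_,
    fun x hx => (hf x hx).1, fun a ha b hb c hc => ?_⟩
  · rw [← (hf x hx).2.1, ← (hf y hy).2.1, a]
  · rw [← (hf x hx).2.2, ← (hf y hy).2.2, a]
  · have eΦ : Φ i = Φ j := congrArg Prod.fst (key a ha)
    rw [h3 j _ (hf a ha).1 _ (hf b hb).1 _ (hf c hc).1, h3 i a ha b hb c hc, eΦ]
    simp only [dat, (hf a ha).2, (hf b hb).2, (hf c hc).2, e.lt_iff_lt]

lemma cyc (a b c : Pt) : orient a b c = orient b c a := by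
  unfold orient det; congr 1; ring

lemma or0 (a b c : Pt) : orient a b c = 0 ↔ det a b c = 0 := by simp [orient]

/-- An affine functional. -/
def ev (l : ℝ × ℝ × ℝ) (x : Pt) : ℝ := l.1 * x.1 + l.2.1 * x.2 + l.2.2

def Ln (l : ℝ × ℝ × ℝ) : Prop := 0 < l.1 ^ 2 + l.2.1 ^ 2

lemma presB (l : ℝ × ℝ × ℝ) (hl : Ln l) (c : ℕ) (e : Fin c → Pt) (S : Finset Pt)
    (h : ∀ x ∈ S, ev l x ≠ 0 → ∃ i, e i = x) :
    Pres (Option (Fin c) × (Fin c → Fin c → SignType)) S := by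
  classical
  obtain ⟨α, β, γ⟩ := l
  simp only [Ln] at hl
  let pos : Pt → ℝ := fun x => -β * x.1 + α * x.2
  let ix : Pt → Option (Fin c) := fun x =>
    if hx : ev (α, β, γ) x ≠ 0 ∧ ∃ i, e i = x then some hx.2.choose else none
  have k1 : ∀ x ∈ S, ∀ y ∈ S, ix x = ix y → ev (α, β, γ) x ≠ 0 → x = y ∧ ∃ i, e i = x := by
    intro x hx y _ a b
    have hx' := h x hx b
    simp only [ix, dif_pos (And.intro b hx')] at a
    split_ifs at a with hy
    exact ⟨by rw [← hx'.choose_spec, Option.some.inj a, hy.2.choose_spec], hx'⟩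
  have k0 : ∀ x ∈ S, ∀ y ∈ S, ix x = ix y → ev (α, β, γ) x = 0 → ev (α, β, γ) y = 0 := by
    intro x hx y hy a b
    by_contra hc
    exact hc ((k1 y hy x hx a.symm hc).1 ▸ b)
  have two : ∀ x y z, ev (α, β, γ) x = 0 → ev (α, β, γ) y = 0 →
      orient x y z = -(SignType.sign (pos y - pos x) * SignType.sign (ev (α, β, γ) z)) := by
    intro x y z hx hy
    rw [← sign_mul, ← Left.sign_neg, orient, ← one_mul (SignType.sign (det x y z)), ← sign_pos hl,
      ← sign_mul]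
    congr 1
    simp only [ev, det, pos] at *
    linear_combination (-β * (z.1 - y.1) + α * (z.2 - y.2)) * -hx +
      (-β * (z.1 - x.1) + α * (z.2 - x.2)) * hy
  refine ⟨pos, fun x => (ix x, fun i j => orient x (e i) (e j)), fun x hx y hy a b => ?_, ?_⟩
  · by_cases hc : ev (α, β, γ) x = 0
    · have hd := k0 x hx y hy (congrArg Prod.fst b) hc
      simp only [ev, pos] at *
      ext
      · apply mul_left_cancel₀ hl.ne'
        linear_combination α * hc - α * hd - β * a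
      · apply mul_left_cancel₀ hl.ne'
        linear_combination β * hc - β * hd + α * a
    · exact (k1 x hx y hy (congrArg Prod.fst b) hc).1
  have A : ∀ a ∈ S, ∀ b ∈ S, ∀ c ∈ S, ∀ a' ∈ S, ∀ b' ∈ S, ∀ c' ∈ S,
      Rel pos (fun x => (ix x, fun i j => orient x (e i) (e j))) a b a' b' → ix c = ix c' →
      ev (α, β, γ) a = 0 → ev (α, β, γ) b = 0 → orient a b c = orient a' b' c' := by
    intro a ha b hb c hc a' ha' b' hb' c' hc' r lc za zb
    rw [two a b c za zb, two a' b' c' (k0 a ha a' ha' (congrArg Prod.fst r.1) za)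
      (k0 b hb b' hb' (congrArg Prod.fst r.2.1) zb), r.sg]
    by_cases zc : ev (α, β, γ) c = 0
    · rw [zc, k0 c hc c' hc' lc zc]
    · rw [(k1 c hc c' hc' lc zc).1]
  have B : ∀ a a' : Pt, ∀ b ∈ S, ∀ c ∈ S, ∀ b' ∈ S, ∀ c' ∈ S,
      (fun i j => orient a (e i) (e j)) = (fun i j => orient a' (e i) (e j)) → ix b = ix b' →
      ix c = ix c' → ev (α, β, γ) b ≠ 0 → ev (α, β, γ) c ≠ 0 → orient a b c = orient a' b' c' := by
    intro a a' b hb c hc b' hb' c' hc' la lb lc zb zc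
    obtain ⟨rfl, i, rfl⟩ := k1 b hb b' hb' lb zb
    obtain ⟨rfl, j, rfl⟩ := k1 c hc c' hc' lc zc
    exact congrFun (congrFun la i) j
  intro a ha b hb c hc a' ha' b' hb' c' hc' ab ac bc
  have la := Prod.mk.inj ab.1
  have lb := Prod.mk.inj ab.2.1
  have lc := Prod.mk.inj ac.2.1
  by_cases za : ev (α, β, γ) a = 0 <;> by_cases zb : ev (α, β, γ) b = 0 <;>
    by_cases zc : ev (α, β, γ) c = 0
  · exact A a ha b hb c hc a' ha' b' hb' c' hc' ab lc.1 za zb
  · exact A a ha b hb c hc a' ha' b' hb' c' hc' ab lc.1 za zb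
  · rw [← cyc c, ← cyc c']; exact A c hc a ha b hb c' hc' a' ha' b' hb' ac.symm lb.1 zc za
  · exact B a a' b hb c hc b' hb' c' hc' la.2 lb.1 lc.1 zb zc
  · rw [cyc a, cyc a']; exact A b hb c hc a ha b' hb' c' hc' a' ha' bc la.1 zb zc
  · rw [cyc a, cyc a']; exact B b b' c hc a ha c' hc' a' ha' lb.2 lc.1 la.1 zc za
  · rw [← cyc c, ← cyc c']; exact B c c' a ha b hb a' ha' b' hb' lc.2 la.1 lb.1 za zb
  · exact B a a' b hb c hc b' hb' c' hc' la.2 lb.1 lc.1 zb zc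

end Pool.Agent.H.MP_639dfe_co
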