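import Mathlib
import Pool.Agent.H.MP_639dfe_co.A

set_option autoImplicit false

namespace Pool.Agent.H.MP_639dfe_co
open Set

lemma onl (l : ℝ × ℝ × ℝ) (p x y z : Pt) (hx : ev l x = 0) (hy : ev l y = 0) :
    ev l p * det x y z = det p x y * ev l z := by
  simp only [ev, det] at *
  linear_combination ((y.1 - p.1) * (z.2 - p.2) - (y.2 - p.2) * (z.1 - p.1)) * hx -
    ((x.1 - p.1) * (z.2 - p.2) - (x.2 - p.2) * (z.1 - p.1)) * hy

lemma presC (l m : ℝ × ℝ × ℝ) (hl : Ln l) (p : Pt) (h1 : ev l p ≠ 0) (h2 : ev m p ≠ 0)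
    (S : Finset Pt) (h : ∀ x ∈ S, ev l x = 0 ∨ ev m x = 0 ∨ x = p) :
    Pres (SignType × SignType × SignType × SignType) S := by
  let u : Pt → ℝ := fun x => l.1 * (x.1 - p.1) + l.2.1 * (x.2 - p.2)
  let g : Pt → ℝ := fun x => -l.2.1 * (x.1 - p.1) + l.1 * (x.2 - p.2)
  let pos : Pt → ℝ := fun x => g x / u x
  let lab : Pt → SignType × SignType × SignType × SignType := fun x =>
    (SignType.sign (ev l x), SignType.sign (ev m x), SignType.sign (u x), SignType.sign (g x))
  have o : ∀ x y, orient p x y = SignType.sign (u x * g y - g x * u y) := by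
    intro x y
    rw [orient, ← one_mul (SignType.sign (det p x y)), ← sign_pos hl, ← sign_mul]
    congr 1
    simp only [det, u, g]; ring
  have z : ∀ a b : ℝ, SignType.sign a = SignType.sign b → a = 0 → b = 0 := by
    intro a b e a0
    rw [a0, sign_zero] at e
    exact sign_eq_zero_iff.1 e.symm
  have psi : ∀ x y x' y', Rel pos lab x y x' y' → orient p x y = orient p x' y' := by
    intro x y x' y' r
    have s := r.sg
    obtain ⟨a, b, -⟩ := r
    simp only [lab, Prod.mk.injEq] at a b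
    rw [o, o]
    by_cases hx : u x = 0
    · rw [hx, z _ _ a.2.2.1 hx]
      simp only [zero_mul, zero_sub, Left.sign_neg, sign_mul, a.2.2.2, b.2.2.1]
    by_cases hy : u y = 0
    · rw [hy, z _ _ b.2.2.1 hy]
      simp only [mul_zero, sub_zero, sign_mul, a.2.2.1, b.2.2.2]
    have hx' : u x' ≠ 0 := fun e => hx (z _ _ a.2.2.1.symm e)
    have hy' : u y' ≠ 0 := fun e => hy (z _ _ b.2.2.1.symm e)
    have e : ∀ x y, u x ≠ 0 → u y ≠ 0 → u x * g y - g x * u y = u x * u y * (pos y - pos x) := by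
      intro x y hx hy
      simp only [pos]; field_simp
    rw [e x y hx hy, e x' y' hx' hy', sign_mul, sign_mul, sign_mul, sign_mul, s, a.2.2.1, b.2.2.1]
  have A : ∀ k : ℝ × ℝ × ℝ, ev k p ≠ 0 →
      (∀ x y, lab x = lab y → SignType.sign (ev k x) = SignType.sign (ev k y)) →
      ∀ a b c a' b' c', Rel pos lab a b a' b' → lab c = lab c' → ev k a = 0 → ev k b = 0 →
        orient a b c = orient a' b' c' := by
    intro k hk hs a b c a' b' c' r lc za zb
    have e1 := congrArg SignType.sign (onl k p a b c za zb)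
    have e2 := congrArg SignType.sign
      (onl k p a' b' c' (z _ _ (hs _ _ r.1) za) (z _ _ (hs _ _ r.2.1) zb))
    rw [sign_mul, sign_mul] at e1 e2
    have e3 := psi _ _ _ _ r
    unfold orient at *
    apply mul_left_cancel₀ (sign_ne_zero.2 hk)
    rw [e1, e2, e3, hs _ _ lc]
  have Al := A l h1 fun x y e => congrArg Prod.fst e
  have Am := A m h2 fun x y e => congrArg (fun t => t.2.1) e
  have P : ∀ x ∈ S, lab p = lab x → x = p := by
    intro x hx e
    rcases h x hx with a | a | a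
    · exact absurd (z _ _ (congrArg Prod.fst e).symm a) h1
    · exact absurd (z _ _ (congrArg (fun t => t.2.1) e).symm a) h2
    · exact a
  refine ⟨pos, lab, fun x hx y hy a b => ?_, ?_⟩
  · have r : Rel pos lab x y x x := ⟨rfl, b.symm, by simp [a], by simp [a]⟩
    have k : (∀ w, orient x y w = orient x x w) → x = y := by
      intro k
      have k1 := k (x.1 + 1, x.2)
      have k2 := k (x.1, x.2 + 1)
      rw [(or0 x x _).2 (by simp [det]), or0] at k1 k2
      simp only [det] at k1 k2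
      ext <;> linarith
    rcases h x hx with c | c | c
    · exact k fun w => Al x y w x x w r rfl c (z _ _ (congrArg Prod.fst b) c)
    · exact k fun w => Am x y w x x w r rfl c (z _ _ (congrArg (fun t => t.2.1) b) c)
    · rw [c, P y hy (c ▸ b)]
  intro a ha b hb c hc a' ha' b' hb' c' hc' ab ac bc
  rcases h a ha with za | za | za
  rotate_left 2
  · rw [za, P a' ha' (za ▸ ab.1)]; exact psi _ _ _ _ bc
  all_goals rcases h b hb with zb | zb | zb
  any_goals first
    | exact Al _ _ _ _ _ _ ab ac.2.1 za zb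
    | exact Am _ _ _ _ _ _ ab ac.2.1 za zb
    | (rw [cyc a, cyc a', zb, P b' hb' (zb ▸ bc.1)]; exact psi _ _ _ _ ac.symm)
  all_goals rcases h c hc with zc | zc | zc
  all_goals first
    | (rw [← cyc c, ← cyc c']; exact Al _ _ _ _ _ _ ac.symm ab.2.1 zc za)
    | (rw [← cyc c, ← cyc c']; exact Am _ _ _ _ _ _ ac.symm ab.2.1 zc za)
    | (rw [cyc a, cyc a']; exact Al _ _ _ _ _ _ bc ab.1 zb zc)
    | (rw [cyc a, cyc a']; exact Am _ _ _ _ _ _ bc ab.1 zb zc)
    | (rw [← cyc c, ← cyc c', zc, P c' hc' (zc ▸ ac.2.1)]; exact psi _ _ _ _ ab)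

def On (a b x : Pt) : Prop := (a = b ∧ x = a) ∨ (a ≠ b ∧ det a b x = 0)

lemma ext1 {G : Finset Pt} (hG : GenPos G) {x : Pt} (h : ∀ a ∈ G, ∀ b ∈ G, ¬ On a b x) :
    x ∉ G ∧ GenPos (insert x G) := by
  refine ⟨fun hx => h x hx x hx (Or.inl ⟨rfl, rfl⟩), ?_⟩
  have k : ∀ a ∈ G, ∀ b ∈ G, a ≠ b → orient a b x ≠ 0 := fun a ha b hb ab e =>
    h a ha b hb (Or.inr ⟨ab, (or0 _ _ _).1 e⟩)
  intro a ha b hb c hc ab ac bc
  rcases Finset.mem_insert.1 ha with rfl | ha' <;> rcases Finset.mem_insert.1 hb with rfl | hb' <;>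
    rcases Finset.mem_insert.1 hc with rfl | hc' <;>
    first | exact absurd rfl ab | exact absurd rfl ac | exact absurd rfl bc | skip
  · rw [cyc]; exact k _ hb' _ hc' bc
  · rw [← cyc c]; exact k _ hc' _ ha' ac.symm
  · exact k _ ha' _ hb' ab
  · exact hG _ ha' _ hb' _ hc' ab ac bc

lemma nz {a b : Pt} (ab : a ≠ b) {t : ℝ} (h1 : (b.1 - a.1) * t = 0) (h2 : (b.2 - a.2) * t = 0) :
    t = 0 := by
  by_contra ht
  exact ab (Prod.ext (by linarith [(mul_eq_zero.1 h1).resolve_right ht])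
    (by linarith [(mul_eq_zero.1 h2).resolve_right ht]))

lemma onl2 (l : ℝ × ℝ × ℝ) {x y z : Pt} (xy : x ≠ y) (hx : ev l x = 0) (hy : ev l y = 0)
    (h : det x y z = 0) : ev l z = 0 := by
  simp only [ev, det] at *
  exact nz xy (by linear_combination (y.1 - z.1) * hx + (z.1 - x.1) * hy + l.2.1 * h)
    (by linear_combination (y.2 - z.2) * hx + (z.2 - x.2) * hy - l.1 * h)

lemma col3 {l : ℝ × ℝ × ℝ} (hl : Ln l) {x y z : Pt} (hx : ev l x = 0) (hy : ev l y = 0)
    (hz : ev l z = 0) : det x y z = 0 := by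
  simp only [ev, det, Ln] at *
  apply mul_left_cancel₀ hl.ne'
  linear_combination (-l.2.1 * (z.1 - y.1) + l.1 * (z.2 - y.2)) * -hx +
    (-l.2.1 * (z.1 - x.1) + l.1 * (z.2 - x.2)) * hy +
    (l.2.1 * (y.1 - x.1) - l.1 * (y.2 - x.2)) * hz

lemma add1 {G : Finset Pt} (hG : GenPos G) (l : ℝ × ℝ × ℝ) (T : Finset Pt)
    (hT : ∀ x ∈ T, ev l x = 0) (hc : G.card ≤ 5) (hc' : 25 < T.card) (w : Pt)
    (h1 : ∀ a ∈ G, ev l a = 0 → a = w) : ∃ x ∈ T, x ∉ G ∧ GenPos (insert x G) := by
  by_contra hn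
  have : ∀ x, ∃ q : Pt × Pt, x ∈ T → q ∈ G ×ˢ G ∧ On q.1 q.2 x := by
    intro x
    by_cases hx : x ∈ T
    · by_contra h2
      push Not at h2
      exact hn ⟨x, hx, ext1 hG fun a ha b hb => (h2 (a, b)).2 (Finset.mem_product.2 ⟨ha, hb⟩)⟩
    · exact ⟨(x, x), fun a => absurd a hx⟩
  choose q hq using this
  obtain ⟨x, hx, y, hy, xy, e⟩ := Finset.exists_ne_map_eq_of_card_lt_of_maps_to
    (s := T) (t := G ×ˢ G) (by rw [Finset.card_product]; nlinarith) (f := q) fun x hx => (hq x hx).1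
  obtain ⟨m, ox⟩ := hq x hx
  have oy := (hq y hy).2
  rw [← e] at oy
  obtain ⟨ma, mb⟩ := Finset.mem_product.1 m
  generalize (q x).1 = a at *
  generalize (q x).2 = b at *
  rcases ox with ⟨ab, a1⟩ | ⟨ab, a1⟩ <;> rcases oy with ⟨ab', a2⟩ | ⟨ab', a2⟩
  · exact xy (a1.trans a2.symm)
  · exact ab' ab
  · exact ab ab'
  · have da : det x y a = 0 := by
      simp only [det] at *
      exact nz ab (by linear_combination (x.1 - a.1) * a2 - (y.1 - a.1) * a1)
        (by linear_combination (x.2 - a.2) * a2 - (y.2 - a.2) * a1)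
    have db : det x y b = 0 := by
      simp only [det] at *
      linear_combination da + a1 - a2
    exact ab ((h1 a ma (onl2 l xy (hT x hx) (hT y hy) da)).trans
      (h1 b mb (onl2 l xy (hT x hx) (hT y hy) db)).symm)

lemma heavy {S : Finset Pt} (h : InC 6 S) {T : Finset Pt} (hT : T ⊆ S) (hc : 650 < T.card) :
    ∃ l, Ln l ∧ ∃ U ⊆ T, 26 < U.card ∧ ∀ x ∈ U, ev l x = 0 := by
  classical
  obtain ⟨G, hG, mx⟩ := Finset.exists_max_image (S.powerset.filter GenPos) Finset.card
    ⟨∅, by simp [GenPos]⟩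
  simp only [Finset.mem_filter, Finset.mem_powerset] at hG mx
  have c5 := h G hG.1 hG.2
  have : ∀ x, ∃ q : Pt × Pt, x ∈ T → q ∈ G ×ˢ G ∧ On q.1 q.2 x := by
    intro x
    by_cases hx : x ∈ T
    · by_contra h2
      push Not at h2
      obtain ⟨a, b⟩ := ext1 hG.2 fun a ha b hb => (h2 (a, b)).2 (Finset.mem_product.2 ⟨ha, hb⟩)
      have := mx _ ⟨Finset.insert_subset (hT hx) hG.1, b⟩
      rw [Finset.card_insert_of_notMem a] at this
      omega
    · exact ⟨(x, x), fun a => absurd a hx⟩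
  choose q hq using this
  obtain ⟨⟨a, b⟩, -, hy⟩ := Finset.exists_lt_card_fiber_of_mul_lt_card_of_maps_to
    (s := T) (t := G ×ˢ G) (f := q) (fun x hx => (hq x hx).1) (n := 26)
    (by rw [Finset.card_product]; nlinarith)
  have o : ∀ x ∈ T.filter fun x => q x = (a, b), On a b x := by
    intro x hx
    obtain ⟨h1, h2⟩ := Finset.mem_filter.1 hx
    simpa [h2] using (hq x h1).2
  by_cases ab : a = b
  · refine ⟨(1, 0, -a.1), by simp [Ln], _, Finset.filter_subset _ _, hy, fun x hx => ?_⟩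
    rcases o x hx with c | c
    · simp [ev, c.2]
    · exact absurd ab c.1
  · refine ⟨(a.2 - b.2, b.1 - a.1, a.1 * b.2 - a.2 * b.1), ?_, _, Finset.filter_subset _ _, hy,
      fun x hx => ?_⟩
    · simp only [Ln]
      by_contra hn
      exact ab (Prod.ext (by nlinarith [sq_nonneg (a.2 - b.2), sq_nonneg (b.1 - a.1)])
        (by nlinarith [sq_nonneg (a.2 - b.2), sq_nonneg (b.1 - a.1)]))
    · rcases o x hx with c | c
      · exact absurd c.1 ab
      · have := c.2
        simp only [ev, det] at *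
        linear_combination this

lemma enum (T : Finset Pt) (c : ℕ) (h : T.card ≤ c) : ∃ e : Fin c → Pt, ∀ x ∈ T, ∃ i, e i = x :=
  ⟨fun i => if h : i.1 < T.card then T.equivFin.symm ⟨i, h⟩ else 0, fun x hx =>
    ⟨⟨T.equivFin ⟨x, hx⟩, lt_of_lt_of_le (Fin.is_lt _) h⟩, by simp⟩⟩

lemma struct {S : Finset Pt} (h : InC 6 S) :
    Pres (Option (Fin 650) × (Fin 650 → Fin 650 → SignType)) S ∨
      Pres (SignType × SignType × SignType × SignType) S := by
  classical
  have small : ∀ l, Ln l → (S.filter fun x => ev l x ≠ 0).card ≤ 650 →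
      Pres (Option (Fin 650) × (Fin 650 → Fin 650 → SignType)) S := by
    intro l hl hc
    obtain ⟨e, he⟩ := enum _ _ hc
    exact presB l hl _ e S fun x hx a => he x (Finset.mem_filter.2 ⟨hx, a⟩)
  by_cases c1 : S.card ≤ 650
  · exact Or.inl (small (1, 0, 0) (by simp [Ln]) ((Finset.card_filter_le _ _).trans c1))
  obtain ⟨l, hl, U, US, Uc, hU⟩ := heavy h (Finset.Subset.refl S) (not_le.1 c1)
  by_cases c2 : (S.filter fun x => ev l x ≠ 0).card ≤ 650
  · exact Or.inl (small l hl c2)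
  obtain ⟨m, hm, V, VS, Vc, hV⟩ := heavy h (Finset.filter_subset _ S) (not_le.1 c2)
  obtain ⟨y0, hy0⟩ := Finset.card_pos.1 (lt_trans (by norm_num) Vc)
  have ly0 := (Finset.mem_filter.1 (VS hy0)).2
  have Wc : 25 < (U.filter fun x => ¬ ev m x = 0).card := by
    have a := Finset.card_filter_add_card_filter_not (s := U) (fun x => ev m x = 0)
    have b : (U.filter fun x => ev m x = 0).card ≤ 1 := by
      rw [Finset.card_le_one]
      intro x hx y hy
      by_contra xy
      rw [Finset.mem_filter] at hx hy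
      exact ly0 (onl2 l xy (hU x hx.1) (hU y hy.1) (col3 hm hx.2 hy.2 (hV y0 hy0)))
    omega
  have hW : ∀ x ∈ U.filter fun x => ¬ ev m x = 0, ev l x = 0 :=
    fun x hx => hU x (Finset.mem_filter.1 hx).1
  right
  by_cases ex : ∃ p ∈ S, ev l p ≠ 0 ∧ ev m p ≠ 0
  · obtain ⟨p, hp, p1, p2⟩ := ex
    refine presC l m hl p p1 p2 S fun q hq => ?_
    by_contra hn
    push Not at hn
    obtain ⟨q1, q2, qp⟩ := hn
    have g2 : GenPos {p, q} := by
      intro a ha b hb c hc ab ac bc
      simp only [Finset.mem_insert, Finset.mem_singleton] at ha hb hc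
      rcases ha with rfl | rfl <;> rcases hb with rfl | rfl <;> rcases hc with rfl | rfl <;>
        contradiction
    have n2 : ({p, q} : Finset Pt).card = 2 := Finset.card_pair qp.symm
    obtain ⟨x1, a1, b1, g3⟩ := add1 g2 l _ hW (by omega) Wc p (by simp [q1])
    have n3 := Finset.card_insert_of_notMem b1
    obtain ⟨x2, a2, b2, g4⟩ := add1 g3 l _ hW (by omega) Wc x1 (by simp [p1, q1])
    have n4 := Finset.card_insert_of_notMem b2
    rw [Finset.mem_filter] at a1 a2
    obtain ⟨y1, a3, b3, g5⟩ := add1 g4 m _ hV (by omega) (by omega) p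
      (by simp [q2, a1.2, a2.2])
    have n5 := Finset.card_insert_of_notMem b3
    obtain ⟨y2, a4, b4, g6⟩ := add1 g5 m _ hV (by omega) (by omega) y1
      (by simp [p2, q2, a1.2, a2.2])
    have n6 := Finset.card_insert_of_notMem b4
    have := h _ (by
      simp only [Finset.insert_subset_iff, Finset.singleton_subset_iff]
      exact ⟨(Finset.mem_filter.1 (VS a4)).1, (Finset.mem_filter.1 (VS a3)).1, US a2.1, US a1.1,
        hp, hq⟩) g6
    omega
  · obtain ⟨x0, hx0⟩ := Finset.card_pos.1 (lt_trans (by norm_num) Wc)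
    have e1 := hW x0 hx0
    have e2 := (Finset.mem_filter.1 hx0).2
    have e3 := hV y0 hy0
    refine presC l m hl ((x0.1 + y0.1) / 2, (x0.2 + y0.2) / 2) (fun e => ly0 ?_) (fun e => e2 ?_) S
      fun q hq => ?_
    · simp only [ev] at *; linarith
    · simp only [ev] at *; linarith
    · by_contra hn
      push Not at hn
      exact ex ⟨q, hq, hn.1, hn.2.1⟩

lemma main (S : ℕ → Finset Pt) (h : ∀ n, InC 6 (S n)) : ∃ i j, i < j ∧ Sub (S i) (S j) :=
  ((pwo _).union (pwo _)).exists_lt fun n => struct (h n)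

end Pool.Agent.H.MP_639dfe_co
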